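import Pool.Agent.F5H.StmtsF
import Pool.Agent.Helper92_F5H.NUM

/-!
MP_f5cbfa_nt, squad F5H, row C_MN (helper96): numerical facts for `MATStmt`.
-/

set_option autoImplicit false

namespace Pool.Agent.F5H.BC.H96

open Pool.Agent.F5H Pool.Agent.F5H.BC Pool.Agent.F5H.BC.H92

/-- `T` is positive and large -/
theorem one_lt_T {T Q : ℝ} {V : Fin 3 → ℝ} (hQ : 2 ≤ Q) (h2000 : Q ^ 2000 ≤ T ^ (1 / 100000 : ℝ))
    (hR : Rg T Q V) : 1 < T := by
  obtain ⟨h2, h21, h10, h0, hl⟩ := hR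
  have hL : 0 < Lx T := by
    have : 0 < Q * Lx T := by linarith
    exact (mul_pos_iff_of_pos_left (by linarith)).1 this
  have hT0 : 0 < T := by
    by_contra hn
    push Not at hn
    rcases eq_or_lt_of_le hn with h | h
    · rw [h] at hL
      unfold Lx at hL
      rw [Real.zero_rpow (by norm_num)] at hL
      exact lt_irrefl _ hL
    · unfold Lx at hL
      rw [Real.rpow_def_of_neg h] at hL
      have hc : Real.cos (277 / 500 * Real.pi) < 0 := by
        refine Real.cos_neg_of_pi_div_two_lt_of_lt ?_ ?_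
        · nlinarith [Real.pi_pos]
        · nlinarith [Real.pi_pos]
      have : Real.exp (Real.log T * (277 / 500)) * Real.cos (277 / 500 * Real.pi) < 0 :=
        mul_neg_of_pos_of_neg (Real.exp_pos _) hc
      linarith
  by_contra hn
  push Not at hn
  have h1 : T ^ (1 / 100000 : ℝ) ≤ 1 := Real.rpow_le_one hT0.le hn (by norm_num)
  have h3 : (1 : ℝ) < Q ^ 2000 := one_lt_pow₀ (by linarith) (by norm_num)
  linarith

theorem mn : MNStmt := by
  refine ⟨2, le_rfl, ?_⟩
  intro T Q V k0 hQ hlog h2000 hR hk hk0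
  have hT : 1 < T := one_lt_T hQ h2000 hR
  obtain ⟨h2, h21, h10, h0, hl⟩ := hR
  have hT0 : 0 < T := by linarith
  have hT1 : T ≠ 1 := hT.ne'
  have hV1 : 0 < V 1 := by linarith
  have hV0 : 0 < V 0 := by linarith
  have hk1 : 0 < k0 := by linarith
  have hQ0 : 0 < Q := by linarith
  obtain ⟨q, hq⟩ : ∃ q, q = Real.logb T Q := ⟨_, rfl⟩
  obtain ⟨v0, hv0⟩ : ∃ v, v = Real.logb T (V 0) := ⟨_, rfl⟩
  obtain ⟨v1, hv1⟩ : ∃ v, v = Real.logb T (V 1) := ⟨_, rfl⟩
  obtain ⟨k, hkk⟩ : ∃ v, v = Real.logb T k0 := ⟨_, rfl⟩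
  have eQ : Q = T ^ q := by rw [hq]; exact (Real.rpow_logb hT0 hT1 hQ0).symm
  have e0 : V 0 = T ^ v0 := by rw [hv0]; exact (Real.rpow_logb hT0 hT1 hV0).symm
  have e1 : V 1 = T ^ v1 := by rw [hv1]; exact (Real.rpow_logb hT0 hT1 hV1).symm
  have ek : k0 = T ^ k := by rw [hkk]; exact (Real.rpow_logb hT0 hT1 hk1).symm
  have ex : ∀ {a b : ℝ}, T ^ a ≤ T ^ b → a ≤ b := fun {a b} h =>
    (Real.rpow_le_rpow_left_iff hT).1 h
  have qp : ∀ n : ℕ, Q ^ n = T ^ (q * n) := by
    intro n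
    rw [eQ, ← Real.rpow_natCast, ← Real.rpow_mul hT0.le]
  have q0 : 0 ≤ q := by
    rw [hq]
    exact Real.logb_nonneg hT (by linarith)
  have q1 : q * 2000 ≤ 1 / 100000 := by
    have := h2000
    rw [qp 2000] at this
    have h3 := ex this
    push_cast at h3
    exact h3
  have c10 : v1 ≤ v0 := by
    rw [e0, e1] at h10
    exact ex h10
  have c1 : 0 ≤ v1 := by
    rw [hv1]
    exact Real.logb_nonneg hT (by linarith)
  have c0 : v0 ≤ q + 277 / 500 := by
    rw [e0, eQ] at h0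
    unfold Lx at h0
    rw [tmul hT] at h0
    exact ex h0
  have cl : 677 / 2000 ≤ q + v1 := by
    rw [e1, eQ, tmul hT] at hl
    exact ex hl
  have ck : 0 ≤ k := by
    rw [hkk]
    exact Real.logb_nonneg hT hk
  have ck0 : k ≤ q * 35 + v0 := by
    rw [qp 35, e0, ek, tmul hT] at hk0
    have h3 := ex hk0
    push_cast at h3
    exact h3
  have hr : rho0 ≤ 1 / 1000000 := by unfold rho0; norm_num
  have ekap : kap T (V 0) = T ^ ((v0 - 1) / 2) := by
    unfold kap
    rw [e0, tdiv1 hT, tsqrt hT]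
  have ekpr : kpr T (V 0) = T ^ (max ((v0 - 1) / 2 * 3) (-(97 / 100))) := by
    unfold kpr
    rw [ekap, tp3 hT, tmax hT]
  have eze : ze T V = T ^ (v0 * 2 - 2) := by
    unfold ze
    rw [e0, tp2 hT, tt2 T, tdiv hT]
  have eRx : Rx T / T = T ^ (669 / 500 + 2 * rho0 - 1) := by
    unfold Rx
    rw [tdiv1 hT]
  have mono : ∀ {a b : ℝ}, a ≤ b → T ^ a ≤ T ^ b := fun {a b} h =>
    Real.rpow_le_rpow_of_exponent_le hT.le h
  have q100 : Q ^ 100 = T ^ (q * 100) := by
    have := qp 100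
    push_cast at this
    exact this
  have hTone : T = T ^ (1 : ℝ) := (Real.rpow_one T).symm
  refine ⟨hT, ?_, ?_, ?_, ?_, ?_, ?_, ?_, ?_, ?_, ?_, ?_⟩
  · rw [ekap]
    exact Real.rpow_pos_of_pos hT0 _
  · rw [ekap, q100, tmul hT]
    exact Real.rpow_le_one_of_one_le_of_nonpos hT.le (by linarith)
  · rw [ekpr]
    exact Real.rpow_pos_of_pos hT0 _
  · rw [ekpr, ekap]
    exact mono (max_le (by linarith) (by linarith))
  · rw [ekap, q100, eze, ek, tmul hT, tmul hT]
    exact mono (by linarith)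
  · rw [q100, eze, ek, tmul hT, tmul hT]
    exact Real.rpow_le_one_of_one_le_of_nonpos hT.le (by linarith)
  · rw [eRx]
    exact Real.rpow_pos_of_pos hT0 _
  · rw [eRx, q100, e1, tmul hT]
    exact mono (by linarith)
  · rw [ekpr, e0, tp2 hT, tt2 T, tdiv hT, tmul hT]
    refine Real.one_le_rpow hT.le ?_
    have := le_max_left ((v0 - 1) / 2 * 3) (-(97 / 100))
    linarith
  · rw [q100]
    conv_rhs => rw [hTone]
    exact mono (by linarith)
  · have hkT : k0 ≤ Real.exp Q := by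
      have h1 : k0 ≤ T := by
        rw [ek]
        conv_rhs => rw [hTone]
        exact mono (by linarith)
      have h2 : T ≤ Real.exp Q := by
        rw [← Real.exp_log hT0]
        exact Real.exp_le_exp.2 hlog
      exact h1.trans h2
    obtain ⟨n, hn⟩ : ∃ n, n = ⌈3 * Q⌉₊ - 1 := ⟨_, rfl⟩
    rw [← hn]
    have hn1 : 2 * Q ≤ (n : ℝ) := by
      have h3 : 3 * Q ≤ (⌈3 * Q⌉₊ : ℝ) := Nat.le_ceil _
      have h4 : ⌈3 * Q⌉₊ ≤ n + 1 := by omega
      have h5 : (⌈3 * Q⌉₊ : ℝ) ≤ n + 1 := by exact_mod_cast h4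
      linarith
    have h6 : Real.exp Q < 2 ^ n := by
      have h7 : (2 : ℝ) ^ n = Real.exp (Real.log 2 * n) := by
        rw [← Real.rpow_natCast, Real.rpow_def_of_pos (by norm_num)]
      rw [h7]
      refine Real.exp_lt_exp.2 ?_
      have h8 : (0.69 : ℝ) < Real.log 2 := by
        have := Real.log_two_gt_d9
        linarith
      nlinarith
    rw [one_div, inv_pow]
    exact inv_strictAnti₀ hk1 (hkT.trans_lt h6)

end Pool.Agent.F5H.BC.H96
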