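import Pool.Agent.F5H.StmtsG
import Pool.Agent.Helper96_F5H.MN

/-!
MP_f5cbfa_nt, squad F5H, row C_KR (helper96): `kpr * k0 ≤ Q`.
-/

set_option autoImplicit false

namespace Pool.Agent.F5H.BC.H96

open Pool.Agent.F5H Pool.Agent.F5H.BC Pool.Agent.F5H.BC.H92

theorem kr : KRStmt := by
  refine ⟨2, le_rfl, ?_⟩
  intro T Q V k0 hQ hlog h2000 hR hk hk0
  have hT : 1 < T := one_lt_T hQ h2000 hR
  obtain ⟨h2, h21, h10, h0, hl⟩ := hR
  have hT0 : 0 < T := by linarith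
  have hT1 : T ≠ 1 := hT.ne'
  have hV0 : 0 < V 0 := by linarith
  have hk1 : 0 < k0 := by linarith
  have hQ0 : 0 < Q := by linarith
  obtain ⟨q, hq⟩ : ∃ q, q = Real.logb T Q := ⟨_, rfl⟩
  obtain ⟨v0, hv0⟩ : ∃ v, v = Real.logb T (V 0) := ⟨_, rfl⟩
  obtain ⟨k, hkk⟩ : ∃ v, v = Real.logb T k0 := ⟨_, rfl⟩
  have eQ : Q = T ^ q := by rw [hq]; exact (Real.rpow_logb hT0 hT1 hQ0).symm
  have e0 : V 0 = T ^ v0 := by rw [hv0]; exact (Real.rpow_logb hT0 hT1 hV0).symm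
  have ek : k0 = T ^ k := by rw [hkk]; exact (Real.rpow_logb hT0 hT1 hk1).symm
  have ex : ∀ {a b : ℝ}, T ^ a ≤ T ^ b → a ≤ b := fun {a b} h =>
    (Real.rpow_le_rpow_left_iff hT).1 h
  have qp : ∀ n : ℕ, Q ^ n = T ^ (q * n) := by
    intro n
    rw [eQ, ← Real.rpow_natCast, ← Real.rpow_mul hT0.le]
  have q0 : 0 ≤ q := by
    rw [hq]
    exact Real.logb_nonneg hT (by linarith)
  have q1 : q * 2000 ≤ 1 / 100000 := by
    have := h2000
    rw [qp 2000] at this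
    have h3 := ex this
    push_cast at h3
    exact h3
  have c0 : v0 ≤ q + 277 / 500 := by
    rw [e0, eQ] at h0
    unfold Lx at h0
    rw [tmul hT] at h0
    exact ex h0
  have ck0 : k ≤ q * 35 + v0 := by
    rw [qp 35, e0, ek, tmul hT] at hk0
    have h3 := ex hk0
    push_cast at h3
    exact h3
  have ekap : kap T (V 0) = T ^ ((v0 - 1) / 2) := by
    unfold kap
    rw [e0, tdiv1 hT, tsqrt hT]
  have ekpr : kpr T (V 0) = T ^ (max ((v0 - 1) / 2 * 3) (-(97 / 100))) := by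
    unfold kpr
    rw [ekap, tp3 hT, tmax hT]
  have h3 : max ((v0 - 1) / 2 * 3) (-(97 / 100)) + k ≤ 0 := by
    rcases max_choice ((v0 - 1) / 2 * 3) (-(97 / 100) : ℝ) with h | h
    · rw [h]
      linarith
    · rw [h]
      linarith
  have h4 : kpr T (V 0) * k0 ≤ 1 := by
    rw [ekpr, ek, tmul hT]
    exact Real.rpow_le_one_of_one_le_of_nonpos hT.le h3
  linarith

end Pool.Agent.F5H.BC.H96
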